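import Pool.Agent.helper24_UT.Ch18
import Pool.Agent.helper24_UT.Cc

set_option autoImplicit false

/-!
# Conjecture F for `x² + x + a`, for almost all odd `a`, for few arguments, with the full constant, in all classes to all moduli

Let `ε > 0` and `A` be fixed and let `N` be large. For all but at most `N / (log N) ^ A` of the odd integers `a` with `|a| ≤ N` the product
`C(Δ)`, `Δ = 1 - 4 a`, over all odd primes converges to a positive number `H`, and the number of the `n ≤ y` for which `n² + n + a`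
is prime (more precisely `± (n² + n + a)`, weighted by the logarithm) is `2 H y` up to the factor `1 + O((log N) ^ (-A))`, for
ALL `y` with `N ^ (1 / 3 + ε) ≤ y ^ 2 ≤ N`; a similar formula holds, in mean square, for the `n` in all residue classes to ALL moduli
`q ≤ y exp (- 2 √(log N))`, with lengths `w(q, s) ≤ y` chosen as unfavourably as possible. In particular `n² + n + a` is prime for some
`n ≤ N ^ (1 / 6 + ε)`. For arbitrary weights `u(n)` (for instance, for the `n` in an arbitrary set of integers) the sum over the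
`n` with `n² + n + a` prime is asymptotically the sum of `u(n)` over the `n` with `n² + n + a` free of prime factors `≤ z`, divided by the density, for almost all `a`
and again for all `y` and, in mean square, in all classes to all moduli `q ≤ y / (log N) ^ B`.

Proof. The values of `x² + x` have nearly minimal additive energy of order `3` or more, so the correlations of the primes minus their sieve model along
`n² + n + a`, with arbitrary weights on the `n ≤ y`, are bounded by the mean square of exponential sums over primes in intervals of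
length `y²` (`Pool.Agent.helper24_UT.Ch.t_MKT`, the method of Mikawa, `y² ≥ N ^ (1 / 3 + ε)`); the theorem of Barban, Davenport and
Halberstam for sequences which are equidistributed in classes to small moduli gives the large moduli. The truncated product is replaced by
the full constant by comparison of two formulas for `n² + 4 a - 1`, `n ≤ √N` (`MP_391708_nt.FullConstantInClasses` of the starting library).
-/

namespace Pool.Agent.Results.MP_8be758_nt.SmallArguments

open Finset Polynomial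

/-- `F(n) = n² + n + a` -/
def F (a : ℤ) (n : ℕ) : ℤ := (n : ℤ) ^ 2 + n + a

/-- the partial products of `C(Δ)`, `Δ = 1 - 4 a`, over the odd primes `w ≤ z` -/
noncomputable def partialC (a : ℤ) (z : ℕ) : ℝ :=
  ∏ w ∈ (Icc 3 z).filter Nat.Prime, (1 - (jacobiSym (1 - 4 * a) w : ℝ) / ((w : ℝ) - 1))

/-- `log |F(n)|` if `|F(n)|` is a prime, `0` otherwise -/
noncomputable def lp (a : ℤ) (n : ℕ) : ℝ :=
  if (F a n).natAbs.Prime then Real.log ((F a n).natAbs : ℝ) else 0

open Classical in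
/-- the sieve model: the inverse of `∏_{p ≤ z} (1 - 1 / p)` if `F(n)` has no prime factor `p ≤ z`, `0` otherwise -/
noncomputable def model (z : ℕ) (a : ℤ) (n : ℕ) : ℝ :=
  if ∀ p ∈ (Icc 1 z).filter Nat.Prime, ¬ (p : ℤ) ∣ F a n then
    (∏ p ∈ (Icc 1 z).filter Nat.Prime, (1 - 1 / (p : ℝ)))⁻¹ else 0

/-- the number of the `t`, `0 ≤ t < p`, with `F(q t + s) ≡ 0 (mod p)` -/
def roots (a : ℤ) (q s p : ℕ) : ℕ := ((range p).filter (fun t : ℕ => (p : ℤ) ∣ F a (q * t + s))).card

/-- the Euler product of the values `F(n)`, `n ≡ s (mod q)`, over the primes `p ≤ z` -/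
noncomputable def product (z : ℕ) (a : ℤ) (q s : ℕ) : ℝ :=
  ∏ p ∈ (Icc 1 z).filter Nat.Prime, (1 - (roots a q s p : ℝ) / p) / (1 - 1 / (p : ℝ))

/-- `C(Δ) = H` exists and is positive; and for all `y` with `N ^ (1 / 3 + ε) ≤ y ^ 2 ≤ N`: (1) the sum of `lp a n` over the `n ≤ y` is `2 H y` up to
`2 H y / (log N) ^ A`; (2) for all `Q ≤ y exp (- 2 √(log N))` and all `w q s ≤ y` the sum, over all `q ≤ Q` and all classes `s` modulo
`q`, of the squares of the error for the `n ≤ w q s`, `n ≡ s (mod q)`, is at most `y ^ 2 / (log N) ^ A`; (3) `|F(n)|` is prime for some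
`n`, `1 ≤ n ≤ y`. -/
def Good (ε : ℝ) (A N z : ℕ) (a : ℤ) : Prop :=
  ∃ H : ℝ, 0 < H ∧ Filter.Tendsto (partialC a) Filter.atTop (nhds H) ∧
  ∀ y : ℕ, (N : ℝ) ^ (1 / 3 + ε) ≤ (y : ℝ) ^ 2 → y ^ 2 ≤ N →
    |∑ n ∈ Icc 1 y, lp a n - 2 * H * y| ≤ 2 * H * y / Real.log N ^ A ∧
    (∀ Q : ℕ, (Q : ℝ) * Real.exp (2 * Real.sqrt (Real.log N)) ≤ y → ∀ w : ℕ → ℕ → ℕ, (∀ q s, w q s ≤ y) →
      ∑ q ∈ Icc 1 Q, ∑ s ∈ range q, (∑ n ∈ (Icc 1 (w q s)).filter (fun n => n % q = s), lp a n -
        (w q s : ℝ) / q * product z a q s) ^ 2 ≤ (y : ℝ) ^ 2 / Real.log N ^ A) ∧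
    ∃ n : ℕ, 1 ≤ n ∧ n ≤ y ∧ (F a n).natAbs.Prime

/-- For the weights `u(n)`: for all `y` with `N ^ (1 / 3 + ε) ≤ y ^ 2 ≤ N`, all `Q ≤ y / (log N) ^ B` and all `w q s ≤ y` the sum,
over all `q ≤ Q` and all classes `s` modulo `q`, of the squares of the sums of `u(n) (lp a n - model z a n)` over the `n ≤ w q s`,
`n ≡ s (mod q)`, is at most `y ^ 2 / (log N) ^ A`. -/
def GoodW (ε : ℝ) (A B N z : ℕ) (u : ℕ → ℝ) (a : ℤ) : Prop :=
  ∀ y : ℕ, (N : ℝ) ^ (1 / 3 + ε) ≤ (y : ℝ) ^ 2 → y ^ 2 ≤ N →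
    ∀ Q : ℕ, (Q : ℝ) * Real.log N ^ B ≤ y → ∀ w : ℕ → ℕ → ℕ, (∀ q s, w q s ≤ y) →
      ∑ q ∈ Icc 1 Q, ∑ s ∈ range q, (∑ n ∈ (Icc 1 (w q s)).filter (fun n => n % q = s),
        u n * (lp a n - model z a n)) ^ 2 ≤ (y : ℝ) ^ 2 / Real.log N ^ A

/-- the polynomial `x² + x` -/
noncomputable def Fm : Fin 1 → ℤ[X] := fun _ => X ^ 2 + X

lemma Fm_deg (i : Fin 1) : (Fm i).natDegree = 2 := by
  unfold Fm
  compute_degree!

lemma Fm_eval (i : Fin 1) (n : ℤ) : (Fm i).eval n = n ^ 2 + n := by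
  unfold Fm
  rw [eval_add, eval_pow, eval_X]

lemma prW_eq (a : ℤ) (n : ℕ) : Pool.Agent.helper24_UT.prW Fm (fun _ => a) n = lp a n := by
  classical
  unfold Pool.Agent.helper24_UT.prW lp
  have e : (Fm 0).eval (n : ℤ) + a = F a n := by
    rw [Fm_eval]
    rfl
  by_cases h : (F a n).natAbs.Prime
  · rw [if_pos h, if_pos, Fin.prod_univ_one, e]
    intro i
    rw [Subsingleton.elim i 0, e]
    exact h
  · rw [if_neg h, if_neg]
    intro h2
    have h3 := h2 0
    rw [e] at h3
    exact h h3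

lemma lz_eq (z : ℕ) (a : ℤ) (n : ℕ) :
    ∏ i : Fin 1, Pool.Agent.helper24_UT.lz z ((Fm i).eval (n : ℤ) + a) = model z a n := by
  classical
  have e : (Fm 0).eval (n : ℤ) + a = F a n := by
    rw [Fm_eval]
    rfl
  rw [Fin.prod_univ_one, e]
  unfold Pool.Agent.helper24_UT.lz model
  by_cases h : ∀ p ∈ (Icc 1 z).filter Nat.Prime, ¬ (p : ℤ) ∣ F a n
  · rw [if_pos h]
    exact if_pos h
  · rw [if_neg h]
    exact if_neg h

lemma product_eq (z : ℕ) (a : ℤ) (q s : ℕ) : Pool.Agent.helper24_UT.sg z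
    (fun i : Fin 1 => (Fm i).comp (C (q : ℤ) * X + C (s : ℤ)) + C a) = product z a q s := by
  classical
  unfold Pool.Agent.helper24_UT.sg product
  apply prod_congr rfl
  intro p _
  rw [pow_one]
  congr 3
  unfold Pool.Agent.helper24_UT.om roots
  congr 2
  ext t
  simp only [mem_filter]
  apply and_congr_right
  intro _
  have e : ∀ i : Fin 1, ((Fm i).comp (C (q : ℤ) * X + C (s : ℤ)) + C a).eval (t : ℤ) = F a (q * t + s) := by
    intro i
    rw [eval_add, eval_comp, Fm_eval, eval_C, eval_add, eval_mul, eval_C, eval_X, eval_C]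
    unfold F
    push_cast
    ring
  constructor
  · rintro ⟨i, hi⟩
    rw [e] at hi
    exact hi
  · intro h
    refine ⟨0, ?_⟩
    rw [e]
    exact h

/-- no fixed prime divisor -/
lemma no_fixed (a : ℤ) (ha : Odd a) (p : ℕ) (hp : p.Prime) : ∃ m : ℤ, ¬ (p : ℤ) ∣ m ^ 2 + m + a := by
  have hpp : Prime (p : ℤ) := Nat.prime_iff_prime_int.1 hp
  by_contra hcon
  push Not at hcon
  have k0 := hcon 0
  have k1 := hcon 1
  have k3 : (p : ℤ) ∣ 2 := by
    have := dvd_sub k1 k0
    have e : ((1 : ℤ) ^ 2 + 1 + a - (0 ^ 2 + 0 + a)) = 2 := by ring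
    rwa [e] at this
  have h2 : p = 2 := by
    have h4 : p ∣ 2 := by exact_mod_cast k3
    exact (Nat.prime_dvd_prime_iff_eq hp Nat.prime_two).1 h4
  subst h2
  obtain ⟨s, hs⟩ := ha
  rw [hs] at k0
  push_cast at k0
  omega

/-- the roots modulo an odd prime -/
lemma om_odd (a : ℤ) (p : ℕ) (hp : p.Prime) (h2 : p ≠ 2) :
    Pool.Agent.helper24_UT.om (Pool.Agent.helper24_UT.qp (4 * a - 1)) p = roots a 1 0 p := by
  classical
  have hpp : Prime (p : ℤ) := Nat.prime_iff_prime_int.1 hp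
  have hodd : p % 2 = 1 := (hp.eq_two_or_odd.resolve_left h2)
  obtain ⟨k, hk⟩ : ∃ k : ℕ, p = 2 * k + 1 := ⟨p / 2, by omega⟩
  have hp0 : 0 < p := hp.pos
  have hp2 : ¬ (p : ℤ) ∣ 4 := by
    intro h
    have h4 : p ∣ 4 := by exact_mod_cast h
    have h5 : p ∣ 2 ^ 2 := by simpa using h4
    exact h2 ((Nat.prime_dvd_prime_iff_eq hp Nat.prime_two).1 (hp.dvd_of_dvd_pow h5))
  unfold Pool.Agent.helper24_UT.om roots
  have key : ∀ t : ℤ, (p : ℤ) ∣ (2 * t + 1) ^ 2 + (4 * a - 1) ↔ (p : ℤ) ∣ t ^ 2 + t + a := by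
    intro t
    have e : (2 * t + 1) ^ 2 + (4 * a - 1) = 4 * (t ^ 2 + t + a) := by ring
    rw [e]
    constructor
    · intro h
      exact (hpp.dvd_or_dvd h).resolve_left hp2
    · intro h
      exact Dvd.dvd.mul_left h 4
  symm
  apply card_bij (fun t _ => (2 * t + 1) % p)
  · intro t ht
    rw [mem_filter, mem_range] at ht ⊢
    refine ⟨Nat.mod_lt _ hp0, 0, ?_⟩
    unfold Pool.Agent.helper24_UT.qp
    rw [eval_add, eval_pow, eval_X, eval_C]
    have h3 : (p : ℤ) ∣ (2 * (t : ℤ) + 1) ^ 2 + (4 * a - 1) := by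
      rw [key]
      have h4 := ht.2
      unfold F at h4
      push_cast at h4
      simpa using h4
    have h5 : (((2 * t + 1) % p : ℕ) : ℤ) ≡ 2 * t + 1 [ZMOD p] := by
      push_cast
      exact Int.mod_modEq _ _
    have h6 := (h5.pow 2).add_right (4 * a - 1)
    exact (Int.ModEq.dvd_iff h6).2 h3
  · intro t ht t' ht' h
    rw [mem_filter, mem_range] at ht ht'
    have h3 : 2 * t + 1 ≡ 2 * t' + 1 [MOD p] := h
    have h4 : 2 * t ≡ 2 * t' [MOD p] := Nat.ModEq.add_right_cancel' 1 h3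
    have h5 : t ≡ t' [MOD p] := by
      refine Nat.ModEq.cancel_left_of_coprime ?_ h4
      exact (Nat.coprime_primes hp Nat.prime_two).2 h2
    rw [Nat.ModEq, Nat.mod_eq_of_lt ht.1, Nat.mod_eq_of_lt ht'.1] at h5
    exact h5
  · intro v hv
    rw [mem_filter, mem_range] at hv
    obtain ⟨hv1, i, hv2⟩ := hv
    unfold Pool.Agent.helper24_UT.qp at hv2
    rw [eval_add, eval_pow, eval_X, eval_C] at hv2
    refine ⟨((k + 1) * (v + 2 * k)) % p, ?_, ?_⟩
    · rw [mem_filter, mem_range]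
      refine ⟨Nat.mod_lt _ hp0, ?_⟩
      unfold F
      push_cast
      have h5 : (((k : ℤ) + 1) * (v + 2 * k)) % p ≡ (k + 1) * (v + 2 * k) [ZMOD p] := Int.mod_modEq _ _
      have h7 : (2 * ((((k : ℤ) + 1) * (v + 2 * k)) % p) + 1) ≡ v [ZMOD p] := by
        have h8 := (h5.mul_left 2).add_right 1
        refine h8.trans ?_
        have h9 : (2 * (((k : ℤ) + 1) * (v + 2 * k)) + 1) = v + (p : ℤ) * (v + 2 * k + 1) := by
          rw [hk]
          push_cast
          ring
        rw [h9]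
        exact Int.modEq_iff_dvd.2 ⟨-((v : ℤ) + 2 * k + 1), by ring⟩
      have h10 := (key ((((k : ℤ) + 1) * (v + 2 * k)) % p)).1 ((Int.ModEq.dvd_iff ((h7.pow 2).add_right (4 * a - 1))).2 hv2)
      simpa using h10
    · have h5 : 2 * (((k + 1) * (v + 2 * k)) % p) + 1 ≡ v [MOD p] := by
        have h6 : ((k + 1) * (v + 2 * k)) % p ≡ (k + 1) * (v + 2 * k) [MOD p] := Nat.mod_modEq _ _
        have h7 := (h6.mul_left 2).add_right 1
        refine h7.trans ?_
        have h9 : 2 * ((k + 1) * (v + 2 * k)) + 1 = v + p * (v + 2 * k + 1) := by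
          rw [hk]
          ring
        rw [h9]
        exact (Nat.modEq_iff_dvd' (Nat.le_add_right _ _)).2 (by simp) |>.symm
      have h6 : (2 * (((k + 1) * (v + 2 * k)) % p) + 1) % p = v % p := h5
      rw [h6, Nat.mod_eq_of_lt hv1]

/-- the Euler product of `x² + x + a` and the constant of `x² + 4 a - 1` -/
lemma product_two (z : ℕ) (hz : 2 ≤ z) (a : ℤ) (ha : Odd a) :
    product z a 1 0 = 2 * Pool.Agent.helper24_UT.sg z (Pool.Agent.helper24_UT.qp (4 * a - 1)) := by
  classical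
  unfold product Pool.Agent.helper24_UT.sg
  have h2 : 2 ∈ (Icc 1 z).filter Nat.Prime := by
    rw [mem_filter, mem_Icc]
    exact ⟨⟨by norm_num, hz⟩, Nat.prime_two⟩
  have hpz : Pool.Agent.H373R2.T7.pz z = (Icc 1 z).filter Nat.Prime := rfl
  rw [hpz, ← mul_prod_erase _ _ h2, ← mul_prod_erase ((Icc 1 z).filter Nat.Prime)
    (fun p => (1 - (Pool.Agent.helper24_UT.om (Pool.Agent.helper24_UT.qp (4 * a - 1)) p : ℝ) / p) / (1 - 1 / (p : ℝ)) ^ 1) h2]
  have e1 : roots a 1 0 2 = 0 := by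
    unfold roots
    rw [card_eq_zero, filter_eq_empty_iff]
    intro t _
    obtain ⟨s, hs⟩ := ha
    unfold F
    push_cast
    rw [hs]
    intro h
    have h3 : (2 : ℤ) ∣ (t : ℤ) * (t + 1) := (Int.even_mul_succ_self (t : ℤ)).two_dvd
    have h4 : ((1 * (t : ℤ) + 0) ^ 2 + (1 * t + 0) + (2 * s + 1)) = t * (t + 1) + 2 * s + 1 := by ring
    rw [h4] at h
    omega
  have e2 : Pool.Agent.helper24_UT.om (Pool.Agent.helper24_UT.qp (4 * a - 1)) 2 = 1 := by
    unfold Pool.Agent.helper24_UT.om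
    rw [card_eq_one]
    refine ⟨1, ?_⟩
    ext t
    rw [mem_filter, mem_range, mem_singleton]
    constructor
    · rintro ⟨ht, i, hi⟩
      unfold Pool.Agent.helper24_UT.qp at hi
      rw [eval_add, eval_pow, eval_X, eval_C] at hi
      interval_cases t
      · exfalso
        push_cast at hi
        omega
      · rfl
    · rintro rfl
      refine ⟨by norm_num, 0, ?_⟩
      unfold Pool.Agent.helper24_UT.qp
      rw [eval_add, eval_pow, eval_X, eval_C]
      push_cast
      omega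
  have e3 : ∏ p ∈ ((Icc 1 z).filter Nat.Prime).erase 2, (1 - (roots a 1 0 p : ℝ) / p) / (1 - 1 / (p : ℝ)) =
      ∏ p ∈ ((Icc 1 z).filter Nat.Prime).erase 2,
        (1 - (Pool.Agent.helper24_UT.om (Pool.Agent.helper24_UT.qp (4 * a - 1)) p : ℝ) / p) / (1 - 1 / (p : ℝ)) ^ 1 := by
    apply prod_congr rfl
    intro p hp
    rw [mem_erase, mem_filter] at hp
    rw [om_odd a p hp.2.2 hp.1, pow_one]
  rw [e1, e2, e3]
  norm_num

lemma hcut_eq (a : ℤ) : Pool.Agent.helper24_UT.hcut (4 * a - 1) = partialC a := by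
  funext z
  unfold Pool.Agent.helper24_UT.hcut partialC
  have e : -(4 * a - 1) = 1 - 4 * a := by ring
  rw [e]

lemma exp_large : ∃ N₁ : ℕ, ∀ N : ℕ, N₁ ≤ N → ∀ (ε : ℝ), 0 < ε → ∀ y : ℕ, (N : ℝ) ^ (1 / 3 + ε) ≤ (y : ℝ) ^ 2 →
    Real.exp (2 * Real.sqrt (Real.log N)) ≤ y := by
  have hlog : Filter.Tendsto (fun N : ℕ => Real.log (N : ℝ)) Filter.atTop Filter.atTop :=
    Real.tendsto_log_atTop.comp tendsto_natCast_atTop_atTop
  obtain ⟨N₁, h1⟩ := Filter.eventually_atTop.1 (hlog.eventually_ge_atTop 144)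
  refine ⟨max N₁ 1, fun N hN ε hε y hy => ?_⟩
  have hL : 144 ≤ Real.log N := h1 N ((le_max_left _ _).trans hN)
  have hN0 : (0 : ℝ) < N := by exact_mod_cast (le_max_right _ _).trans hN
  have hN1 : (1 : ℝ) ≤ N := by exact_mod_cast (le_max_right _ _).trans hN
  have h2 : (N : ℝ) ^ (1 / 3 : ℝ) ≤ (y : ℝ) ^ 2 :=
    (Real.rpow_le_rpow_of_exponent_le hN1 (by linarith)).trans hy
  have h3 : Real.exp (2 * Real.sqrt (Real.log N)) ^ 2 ≤ (y : ℝ) ^ 2 := by
    refine le_trans ?_ h2
    rw [← Real.exp_nat_mul, Real.rpow_def_of_pos hN0]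
    apply Real.exp_le_exp.2
    have h4 : Real.sqrt (Real.log N) * 12 ≤ Real.log N := by
      have h5 : (12 : ℝ) ≤ Real.sqrt (Real.log N) := by
        apply Real.le_sqrt_of_sq_le
        linarith
      have h6 := Real.mul_self_sqrt (by linarith : (0 : ℝ) ≤ Real.log N)
      nlinarith
    push_cast
    linarith
  exact (pow_le_pow_iff_left₀ (Real.exp_pos _).le (Nat.cast_nonneg _) (by norm_num)).1 h3

/-- the passage from the truncated product to the full constant -/
lemma full (L S h y t : ℝ) (A : ℕ) (hL : 8 ≤ L) (hy : 0 ≤ y) (hh : 0 < h) (hS : 1 / L ≤ 2 * S)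
    (h1 : |h - S| ≤ (h + 1) / L ^ (A + 5)) (h2 : |t - y * (2 * S)| ≤ y / L ^ (A + 4)) :
    |t - 2 * h * y| ≤ 2 * h * y / L ^ A := by
  have hL0 : 0 < L := by linarith
  have hA0 : 0 < L ^ A := pow_pos hL0 A
  have hA1 : 1 ≤ L ^ A := one_le_pow₀ (by linarith)
  obtain ⟨v, hv⟩ : ∃ v, v = 1 / L := ⟨_, rfl⟩
  have hv0 : 0 < v := by rw [hv]; positivity
  have hv8 : v ≤ 1 / 8 := by
    rw [hv]
    exact one_div_le_one_div_of_le (by norm_num) hL
  obtain ⟨w, hw⟩ : ∃ w, w = 1 / L ^ A := ⟨_, rfl⟩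
  have hw0 : 0 < w := by rw [hw]; positivity
  have hw1 : w ≤ 1 := by
    rw [hw, div_le_one hA0]
    exact hA1
  have e5 : (h + 1) / L ^ (A + 5) = (h + 1) * w * v ^ 5 := by
    rw [hw, hv, pow_add]
    field_simp
  have e4 : y / L ^ (A + 4) = y * w * v ^ 4 := by
    rw [hw, hv, pow_add]
    field_simp
  have eA : 2 * h * y / L ^ A = 2 * h * y * w := by
    rw [hw]
    field_simp
  rw [e5] at h1
  rw [e4] at h2
  rw [eA]
  rw [← hv] at hS
  have hv2 : v ^ 2 ≤ 1 / 64 := by nlinarith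
  have hv4 : v ^ 4 ≤ v * (1 / 512) := by
    have : v ^ 4 = v * (v * v ^ 2) := by ring
    rw [this]
    apply mul_le_mul_of_nonneg_left _ hv0.le
    nlinarith
  have hv5 : v ^ 5 ≤ v * (1 / 4096) := by
    have : v ^ 5 = v ^ 4 * v := by ring
    rw [this]
    nlinarith
  have hv50 : 0 ≤ v ^ 5 := by positivity
  have hv40 : 0 ≤ v ^ 4 := by positivity
  -- `h ≥ v / 4`
  have hlow : v / 4 ≤ h := by
    have k1 := (abs_le.1 h1).1
    have k2 : (h + 1) * w * v ^ 5 ≤ (h + 1) * (v * (1 / 4096)) := by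
      have : (h + 1) * w * v ^ 5 ≤ (h + 1) * 1 * v ^ 5 := by
        apply mul_le_mul_of_nonneg_right _ hv50
        exact mul_le_mul_of_nonneg_left hw1 (by linarith)
      refine this.trans ?_
      rw [mul_one]
      exact mul_le_mul_of_nonneg_left hv5 (by linarith)
    nlinarith
  have k3 : |t - 2 * h * y| ≤ y * w * v ^ 4 + 2 * y * ((h + 1) * w * v ^ 5) := by
    have e : t - 2 * h * y = (t - y * (2 * S)) - 2 * y * (h - S) := by ring
    rw [e]
    refine (abs_sub _ _).trans (add_le_add h2 ?_)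
    rw [abs_mul, abs_of_nonneg (by linarith : 0 ≤ 2 * y)]
    exact mul_le_mul_of_nonneg_left h1 (by linarith)
  refine k3.trans ?_
  have hyw : 0 ≤ y * w := mul_nonneg hy hw0.le
  have k4 : v ^ 4 + 2 * ((h + 1) * v ^ 5) ≤ 2 * h := by
    have k5 : (h + 1) * v ^ 5 ≤ (h + 1) * (v * (1 / 4096)) := mul_le_mul_of_nonneg_left hv5 (by linarith)
    nlinarith
  calc y * w * v ^ 4 + 2 * y * ((h + 1) * w * v ^ 5) = (y * w) * (v ^ 4 + 2 * ((h + 1) * v ^ 5)) := by ring
    _ ≤ (y * w) * (2 * h) := mul_le_mul_of_nonneg_left k4 hyw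
    _ = _ := by ring

open Classical in
/-- **Conjecture F for `x² + x + a`, for almost all odd `a` and few arguments.** -/
theorem result (ε : ℝ) (hε : 0 < ε) (A T : ℕ) : ∃ E₀ B : ℕ, ∀ E₁ : ℕ, ∃ N₀ : ℕ, ∀ N : ℕ, N₀ ≤ N → ∀ z : ℕ,
    Real.log N ^ E₀ ≤ z → (z : ℝ) ≤ Real.log N ^ E₁ →
    (((Icc (-(N : ℤ)) N).filter (fun a => Odd a ∧ ¬ Good ε A N z a)).card : ℝ) ≤ N / Real.log N ^ A ∧
    ∀ u : ℕ → ℝ, (∀ n, n ≤ N → |u n| ≤ Real.log N ^ T) →
      (((Icc (-(N : ℤ)) N).filter (fun a => ¬ GoodW ε A B N z u a)).card : ℝ) ≤ N / Real.log N ^ A := by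
  obtain ⟨e, he⟩ := exists_nat_gt (1 / ε)
  have he0 : (0 : ℝ) < e := lt_trans (by positivity) he
  have he1 : 1 ≤ e := by exact_mod_cast he0
  have hle : 1 / (e : ℝ) ≤ ε := by
    rw [div_le_iff₀ he0]
    rw [div_lt_iff₀ hε] at he
    linarith
  obtain ⟨E₀, h⟩ := Pool.Agent.helper24_UT.Ch.t_R37 1 2 Fm (by norm_num) Fm_deg e (2 * A + 8) he1
  obtain ⟨E₀', B, h'⟩ := Pool.Agent.helper24_UT.Ch.t_R36 1 2 Fm (by norm_num) Fm_deg e A T he1
  obtain ⟨E₂, h2⟩ := Pool.Agent.helper24_UT.Cc.const_close (A + 5)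
  refine ⟨max (max E₀ E₀') (2 * E₂ + 1), B, fun E₁ => ?_⟩
  obtain ⟨N₀, h0⟩ := h E₁
  obtain ⟨N₀', h0'⟩ := h' E₁
  obtain ⟨X₂, h2⟩ := h2 E₁
  obtain ⟨N₁, h1⟩ := Pool.Agent.helper24_UT.Low.main 1 2 E₁
  obtain ⟨N₃, h3⟩ := exp_large
  have hlog : Filter.Tendsto (fun N : ℕ => Real.log (N : ℝ)) Filter.atTop Filter.atTop :=
    Real.tendsto_log_atTop.comp tendsto_natCast_atTop_atTop
  obtain ⟨N₂, hN₂⟩ := Filter.eventually_atTop.1 (hlog.eventually_ge_atTop 8)
  refine ⟨N₀ + N₀' + X₂ + N₁ + N₂ + N₃ + 5, fun N hN z hz1 hz2 => ?_⟩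
  have hL8 : 8 ≤ Real.log N := hN₂ N (by omega)
  have hN1 : 1 ≤ N := by omega
  have hN0 : (0 : ℝ) < N := by exact_mod_cast hN1
  have hL0 : 0 < Real.log N := by linarith
  have hz1a : Real.log N ^ E₀ ≤ z :=
    (pow_le_pow_right₀ (by linarith) ((le_max_left _ _).trans (le_max_left _ _))).trans hz1
  have hz1b : Real.log N ^ E₀' ≤ z :=
    (pow_le_pow_right₀ (by linarith) ((le_max_right _ _).trans (le_max_left _ _))).trans hz1
  have hz1d : Real.log N ^ (2 * E₂ + 1) ≤ z := (pow_le_pow_right₀ (by linarith) (le_max_right _ _)).trans hz1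
  have hz1c : Real.log N ^ (2 * E₂) ≤ z := (pow_le_pow_right₀ (by linarith) (Nat.le_succ _)).trans hz1d
  have hrange : ∀ y : ℕ, (N : ℝ) ^ (1 / 3 + ε) ≤ (y : ℝ) ^ 2 → y ^ 2 ≤ N → Pool.Agent.helper24_UT.Yr (1 / 3) e N 2 y := by
    intro y hy1 hy2
    exact ⟨(Real.rpow_le_rpow_of_exponent_le (by exact_mod_cast hN1) (by linarith)).trans hy1, hy2⟩
  constructor
  · have key := h0 N (by omega) z hz1a hz2
    rw [pow_one] at key
    obtain ⟨Y, hY⟩ : ∃ Y : ℕ, Y = 4 * N + 1 := ⟨_, rfl⟩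
    have hYN : N ≤ Y := by omega
    have hLY : Real.log N ≤ Real.log Y := Real.log_le_log hN0 (by exact_mod_cast hYN)
    have hLY2 : Real.log Y ≤ Real.log N ^ 2 := by
      have h4 : Y ≤ N ^ 2 := by
        have h5 : 5 ≤ N := by omega
        rw [hY]
        nlinarith
      have h6 : Real.log Y ≤ Real.log ((N : ℝ) ^ 2) := by
        apply Real.log_le_log
        · exact_mod_cast (by omega : 0 < Y)
        · exact_mod_cast h4
      rw [Real.log_pow] at h6
      push_cast at h6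
      nlinarith
    have key2 := h2 Y (by omega) z
      (by
        calc Real.log Y ^ E₂ ≤ (Real.log N ^ 2) ^ E₂ := pow_le_pow_left₀ (by linarith) hLY2 _
          _ = Real.log N ^ (2 * E₂) := (pow_mul _ _ _).symm
          _ ≤ z := hz1c)
      (hz2.trans (pow_le_pow_left₀ hL0.le hLY _))
    have hsub : (Icc (-(N : ℤ)) N).filter (fun a => Odd a ∧ ¬ Good ε A N z a) ⊆
        ((Icc (-(N : ℤ)) N).filter (fun a => (fun _ : Fin 1 => a) ∈
          ((Fintype.piFinset (fun _ : Fin 1 => Icc (-(N : ℤ)) N)).filter (fun a => ∃ y : ℕ,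
            Pool.Agent.helper24_UT.Yr (1 / 3) e N 2 y ∧
            ¬ ∀ Q : ℕ, (Q : ℝ) * Real.exp (2 * Real.sqrt (Real.log N)) ≤ y → ∀ w : ℕ → ℕ → ℕ, (∀ q s, w q s ≤ y) →
              ∑ q ∈ Icc 1 Q, ∑ s ∈ range q, (∑ n ∈ (Icc 1 (w q s)).filter (fun n => n % q = s),
                Pool.Agent.helper24_UT.prW Fm a n - (w q s : ℝ) / q * Pool.Agent.helper24_UT.sg z
                  (fun i => (Fm i).comp (C (q : ℤ) * X + C (s : ℤ)) + C (a i))) ^ 2 ≤
                (y : ℝ) ^ 2 / (Real.log N) ^ (2 * A + 8))))) ∪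
        ((Icc (-(N : ℤ)) N).filter (fun a => (4 * a - 1) ∈ (Icc (-(Y : ℤ)) Y).filter (fun a =>
          ¬ ∃ h : ℝ, 0 < h ∧ Filter.Tendsto (Pool.Agent.helper24_UT.hcut a) Filter.atTop (nhds h) ∧
            |h - Pool.Agent.helper24_UT.sg z (Pool.Agent.helper24_UT.qp a)| ≤ (h + 1) / Real.log Y ^ (A + 5)))) := by
      intro a ha
      rw [mem_filter] at ha
      obtain ⟨haI, hodd, hbad⟩ := ha
      have haI' := mem_Icc.1 haI
      by_contra hcon
      apply hbad
      rw [mem_union, not_or] at hcon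
      obtain ⟨c1, c2⟩ := hcon
      have d2 : ∃ h : ℝ, 0 < h ∧ Filter.Tendsto (Pool.Agent.helper24_UT.hcut (4 * a - 1)) Filter.atTop (nhds h) ∧
            |h - Pool.Agent.helper24_UT.sg z (Pool.Agent.helper24_UT.qp (4 * a - 1))| ≤ (h + 1) / Real.log Y ^ (A + 5) := by
        by_contra hc
        apply c2
        refine mem_filter.2 ⟨haI, mem_filter.2 ⟨mem_Icc.2 ⟨?_, ?_⟩, hc⟩⟩
        · rw [hY]
          push_cast
          linarith [haI'.1]
        · rw [hY]
          push_cast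
          linarith [haI'.2]
      have d1 : ∀ y : ℕ, Pool.Agent.helper24_UT.Yr (1 / 3) e N 2 y →
          ∀ Q : ℕ, (Q : ℝ) * Real.exp (2 * Real.sqrt (Real.log N)) ≤ y → ∀ w : ℕ → ℕ → ℕ, (∀ q s, w q s ≤ y) →
            ∑ q ∈ Icc 1 Q, ∑ s ∈ range q, (∑ n ∈ (Icc 1 (w q s)).filter (fun n => n % q = s), lp a n -
              (w q s : ℝ) / q * product z a q s) ^ 2 ≤ (y : ℝ) ^ 2 / (Real.log N) ^ (2 * A + 8) := by
        intro y hy
        by_contra hc
        apply c1
        rw [mem_filter, mem_filter, Fintype.mem_piFinset]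
        refine ⟨haI, fun _ => haI, y, hy, fun h4 => hc ?_⟩
        intro Q hQ w hw
        have h5 := h4 Q hQ w hw
        simp only [prW_eq, product_eq] at h5
        exact h5
      obtain ⟨H, hH, ht, hcl⟩ := d2
      rw [hcut_eq] at ht
      have hcl' : |H - Pool.Agent.helper24_UT.sg z (Pool.Agent.helper24_UT.qp (4 * a - 1))| ≤ (H + 1) / Real.log N ^ (A + 5) := by
        refine hcl.trans ?_
        apply div_le_div_of_nonneg_left (by linarith) (by positivity)
        exact pow_le_pow_left₀ hL0.le hLY _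
      have hz2' : 2 ≤ z := by
        have h4 : (2 : ℝ) ≤ z := by
          have h5 : Real.log N ≤ Real.log N ^ (2 * E₂ + 1) := by
            calc Real.log N = Real.log N ^ 1 := (pow_one _).symm
              _ ≤ _ := pow_le_pow_right₀ (by linarith) (by omega)
          linarith
        exact_mod_cast h4
      have hlow : 1 / Real.log N ≤ product z a 1 0 := by
        rw [← product_eq]
        apply h1 N (by omega) z hz2
        · intro i
          have e2 : (Fm i).comp (C ((1 : ℕ) : ℤ) * X + C ((0 : ℕ) : ℤ)) = Fm i := by simp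
          rw [e2, natDegree_add_C]
          exact (Fm_deg i).le
        · intro p hp
          obtain ⟨m, hm⟩ := no_fixed a hodd p hp
          refine ⟨m, fun i => ?_⟩
          have e2 : (Fm i).comp (C ((1 : ℕ) : ℤ) * X + C ((0 : ℕ) : ℤ)) = Fm i := by simp
          rw [e2, eval_add, Fm_eval, eval_C]
          exact hm
      refine ⟨H, hH, ht, fun y hy1 hy2 => ?_⟩
      have hyE := h3 N (by omega) ε hε y hy1
      have hy0 : (0 : ℝ) < y := (Real.exp_pos _).trans_le hyE
      have hmain' := d1 y (hrange y hy1 hy2)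
      have hone : |∑ n ∈ Icc 1 y, lp a n - y * product z a 1 0| ≤ y / Real.log N ^ (A + 4) := by
        have h4 := hmain' 1 (by rw [Nat.cast_one, one_mul]; exact hyE) (fun _ _ => y) (fun _ _ => le_rfl)
        rw [Icc_self, sum_singleton, range_one, sum_singleton, Nat.cast_one, div_one] at h4
        have e1 : (Icc 1 y).filter (fun n => n % 1 = 0) = Icc 1 y := filter_true_of_mem fun n _ => Nat.mod_one n
        rw [e1] at h4
        apply abs_le_of_sq_le_sq _ (by positivity)
        rw [div_pow, ← pow_mul]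
        refine h4.trans (le_of_eq ?_)
        congr 2
        ring
      refine ⟨?_, fun Q hQ w hw => (hmain' Q hQ w hw).trans ?_, ?_⟩
      · rw [product_two z hz2' a hodd] at hone hlow
        exact full (Real.log N) _ H y _ A hL8 hy0.le hH hlow hcl' hone
      · apply div_le_div_of_nonneg_left (by positivity) (by positivity)
        exact pow_le_pow_right₀ (by linarith) (by omega)
      · by_contra hno
        push Not at hno
        have hz : ∑ n ∈ Icc 1 y, lp a n = 0 := by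
          apply sum_eq_zero
          intro n hn
          have hn1 := mem_Icc.1 hn
          unfold lp
          rw [if_neg]
          exact hno n hn1.1 hn1.2
        rw [hz, zero_sub, abs_neg, abs_of_nonneg (mul_nonneg hy0.le ((by positivity : (0 : ℝ) ≤ 1 / Real.log N).trans hlow))] at hone
        have h4 : (y : ℝ) / Real.log N ^ (A + 4) < y * product z a 1 0 := by
          calc (y : ℝ) / Real.log N ^ (A + 4) < y * (1 / Real.log N) := by
                rw [mul_one_div]
                apply div_lt_div_of_pos_left hy0 hL0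
                calc Real.log N = Real.log N ^ 1 := (pow_one _).symm
                  _ < Real.log N ^ (A + 4) := pow_lt_pow_right₀ (by linarith) (by omega)
            _ ≤ _ := mul_le_mul_of_nonneg_left hlow hy0.le
        linarith
    have c1 : (((Icc (-(N : ℤ)) N).filter (fun a => (fun _ : Fin 1 => a) ∈
          ((Fintype.piFinset (fun _ : Fin 1 => Icc (-(N : ℤ)) N)).filter (fun a => ∃ y : ℕ,
            Pool.Agent.helper24_UT.Yr (1 / 3) e N 2 y ∧
            ¬ ∀ Q : ℕ, (Q : ℝ) * Real.exp (2 * Real.sqrt (Real.log N)) ≤ y → ∀ w : ℕ → ℕ → ℕ, (∀ q s, w q s ≤ y) →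
              ∑ q ∈ Icc 1 Q, ∑ s ∈ range q, (∑ n ∈ (Icc 1 (w q s)).filter (fun n => n % q = s),
                Pool.Agent.helper24_UT.prW Fm a n - (w q s : ℝ) / q * Pool.Agent.helper24_UT.sg z
                  (fun i => (Fm i).comp (C (q : ℤ) * X + C (s : ℤ)) + C (a i))) ^ 2 ≤
                (y : ℝ) ^ 2 / (Real.log N) ^ (2 * A + 8))))).card : ℝ) ≤ N / Real.log N ^ (2 * A + 8) := by
      refine le_trans (Nat.cast_le.2 ?_) key
      exact card_le_card_of_injOn (fun a => (fun _ : Fin 1 => a)) (fun a ha => (mem_filter.1 (mem_coe.1 ha)).2)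
        (fun a _ b _ hab => congrFun hab 0)
    have c2 : (((Icc (-(N : ℤ)) N).filter (fun a => (4 * a - 1) ∈ (Icc (-(Y : ℤ)) Y).filter (fun a =>
          ¬ ∃ h : ℝ, 0 < h ∧ Filter.Tendsto (Pool.Agent.helper24_UT.hcut a) Filter.atTop (nhds h) ∧
            |h - Pool.Agent.helper24_UT.sg z (Pool.Agent.helper24_UT.qp a)| ≤ (h + 1) / Real.log Y ^ (A + 5)))).card : ℝ) ≤
        2 * (Y / Real.log Y ^ (A + 5)) := by
      refine le_trans (Nat.cast_le.2 ?_) key2
      exact card_le_card_of_injOn (fun a => 4 * a - 1) (fun a ha => (mem_filter.1 (mem_coe.1 ha)).2)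
        (fun a _ b _ hab => by
          have hab' : 4 * a - 1 = 4 * b - 1 := hab
          omega)
    refine (Nat.cast_le.2 ((card_le_card hsub).trans (card_union_le _ _))).trans ?_
    rw [Nat.cast_add]
    refine (add_le_add c1 c2).trans ?_
    have hA0 : 0 < Real.log N ^ A := pow_pos hL0 A
    have g1 : (N : ℝ) / Real.log N ^ (2 * A + 8) ≤ N / Real.log N ^ A * (1 / 8) := by
      have h4 : Real.log N ^ A * 8 ≤ Real.log N ^ (2 * A + 8) := by
        calc Real.log N ^ A * 8 ≤ Real.log N ^ A * Real.log N := mul_le_mul_of_nonneg_left hL8 hA0.le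
          _ = Real.log N ^ (A + 1) := (pow_succ _ _).symm
          _ ≤ _ := pow_le_pow_right₀ (by linarith) (by omega)
      rw [div_mul_div_comm, mul_one]
      exact div_le_div_of_nonneg_left hN0.le (by positivity) h4
    have g2 : 2 * ((Y : ℝ) / Real.log Y ^ (A + 5)) ≤ N / Real.log N ^ A * (1 / 8) := by
      have h4 : (Y : ℝ) ≤ 5 * N := by
        have : Y ≤ 5 * N := by omega
        exact_mod_cast this
      have h5 : Real.log N ^ A * 512 ≤ Real.log Y ^ (A + 5) := by
        calc Real.log N ^ A * 512 ≤ Real.log N ^ A * Real.log N ^ 5 := by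
              apply mul_le_mul_of_nonneg_left _ hA0.le
              calc (512 : ℝ) ≤ 8 ^ 5 := by norm_num
                _ ≤ Real.log N ^ 5 := pow_le_pow_left₀ (by norm_num) hL8 5
          _ = Real.log N ^ (A + 5) := (pow_add _ _ _).symm
          _ ≤ _ := pow_le_pow_left₀ hL0.le hLY _
      calc 2 * ((Y : ℝ) / Real.log Y ^ (A + 5)) ≤ 2 * (5 * N / (Real.log N ^ A * 512)) := by
            apply mul_le_mul_of_nonneg_left _ (by norm_num)
            exact div_le_div₀ (by positivity) h4 (by positivity) h5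
        _ = N / Real.log N ^ A * (10 / 512) := by
            field_simp
            ring
        _ ≤ _ := by
            apply mul_le_mul_of_nonneg_left _ (by positivity)
            norm_num
    have g3 : 0 ≤ N / Real.log N ^ A := by positivity
    linarith
  · intro u hu
    have key := h0' N (by omega) z hz1b hz2 u hu
    rw [pow_one] at key
    refine le_trans ?_ key
    refine Nat.cast_le.2 ?_
    refine card_le_card_of_injOn (fun a => (fun _ : Fin 1 => a)) ?_ (fun a _ b _ hab => congrFun hab 0)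
    intro a ha
    have ha := mem_filter.1 (mem_coe.1 ha)
    rw [mem_coe, mem_filter, Fintype.mem_piFinset]
    refine ⟨fun _ => ha.1, ?_⟩
    by_contra hcon
    push Not at hcon
    apply ha.2
    intro y hy1 hy2 Q hQ w hw
    have h4 := hcon y (hrange y hy1 hy2) Q hQ w hw
    simp only [prW_eq, lz_eq] at h4
    exact h4

end Pool.Agent.Results.MP_8be758_nt.SmallArguments
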